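import Pool.Agent.V11231.FLT.Slot
import Pool.Agent.V11231.LPG.Main

/-! Linear programs and circuits with unreliable negations. -/

set_option autoImplicit false
set_option linter.unusedSectionVars false
set_option linter.unusedVariables false

namespace Pool.Agent.V11231.FLT

open Finset Pool.Agent.Y630.TF H630VC Filter

/-- The linear system `0 ≤ x ≤ z`, `G x ≤ 1`, `∑ x ≥ t` has a solution; `z` is a vector of bits. -/
def PackingSolvable {r N : ℕ} (G : Matrix (Fin r) (Fin N) ℝ) (z : Fin N → Bool) (t : ℝ) : Prop :=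
  ∃ x : Fin N → ℝ, (∀ e, 0 ≤ x e) ∧ (∀ e, x e ≤ if z e = true then 1 else 0) ∧
    (∀ i, G.mulVec x i ≤ 1) ∧ t ≤ ∑ e, x e

section

variable {n K N : ℕ}

/-- the matrix of the system -/
noncomputable def gmat (e : (Fin n × Fin n) × Fin K ≃ Fin N) (ρ : Fin (2 * n) ≃ Fin n ⊕ Fin n) :
    Matrix (Fin (2 * n)) (Fin N) ℝ := fun i c =>
  match ρ i with
  | Sum.inl u => if (e.symm c).1.1 = u then 1 else 0
  | Sum.inr v => if (e.symm c).1.2 = v then 1 else 0

lemma gmat_entry (e : (Fin n × Fin n) × Fin K ≃ Fin N) (ρ : Fin (2 * n) ≃ Fin n ⊕ Fin n)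
    (i : Fin (2 * n)) (c : Fin N) : gmat e ρ i c = 0 ∨ gmat e ρ i c = 1 := by
  unfold gmat
  rcases ρ i with u | v
  · simp only
    split_ifs <;> simp
  · simp only
    split_ifs <;> simp

/-- the value of a variable of the small system -/
noncomputable def agg (e : (Fin n × Fin n) × Fin K ≃ Fin N) (x : Fin N → ℝ) (p : Fin n × Fin n) :
    ℝ := ∑ k, x (e (p, k))

lemma sum_agg (e : (Fin n × Fin n) × Fin K ≃ Fin N) (x : Fin N → ℝ) :
    ∑ c, x c = ∑ p, agg e x p := by
  rw [← Equiv.sum_comp e, Fintype.sum_prod_type]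
  rfl

lemma mulVec_inl (e : (Fin n × Fin n) × Fin K ≃ Fin N) (ρ : Fin (2 * n) ≃ Fin n ⊕ Fin n)
    (x : Fin N → ℝ) (u : Fin n) :
    (gmat e ρ).mulVec x (ρ.symm (Sum.inl u)) = ∑ j, agg e x (u, j) := by
  have h1 : (gmat e ρ).mulVec x (ρ.symm (Sum.inl u)) =
      ∑ c, (if (e.symm c).1.1 = u then x c else 0) := by
    unfold Matrix.mulVec dotProduct gmat
    refine Finset.sum_congr rfl fun c _ => ?_
    rw [Equiv.apply_symm_apply]
    simp only [ite_mul, one_mul, zero_mul]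
  rw [h1, ← Equiv.sum_comp e, Fintype.sum_prod_type, Fintype.sum_prod_type]
  simp only [Equiv.symm_apply_apply]
  rw [Finset.sum_eq_single u]
  · refine Finset.sum_congr rfl fun j _ => ?_
    simp [agg]
  · intro b _ hb
    simp [hb]
  · simp

lemma mulVec_inr (e : (Fin n × Fin n) × Fin K ≃ Fin N) (ρ : Fin (2 * n) ≃ Fin n ⊕ Fin n)
    (x : Fin N → ℝ) (v : Fin n) :
    (gmat e ρ).mulVec x (ρ.symm (Sum.inr v)) = ∑ i, agg e x (i, v) := by
  have h1 : (gmat e ρ).mulVec x (ρ.symm (Sum.inr v)) =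
      ∑ c, (if (e.symm c).1.2 = v then x c else 0) := by
    unfold Matrix.mulVec dotProduct gmat
    refine Finset.sum_congr rfl fun c _ => ?_
    rw [Equiv.apply_symm_apply]
    simp only [ite_mul, one_mul, zero_mul]
  rw [h1, ← Equiv.sum_comp e, Fintype.sum_prod_type, Fintype.sum_prod_type]
  simp only [Equiv.symm_apply_apply]
  refine Finset.sum_congr rfl fun i _ => ?_
  rw [Finset.sum_eq_single v]
  · simp [agg]
  · intro b _ hb
    simp [hb]
  · simp

open Classical in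
/-- the bits of a bipartite graph -/
noncomputable def bitsE (E : Fin n → Fin n → Prop) (p : Fin n × Fin n) : Bool :=
  decide (E p.1 p.2)

variable [NeZero K]

open Classical in
lemma hostE (e : (Fin n × Fin n) × Fin K ≃ Fin N) (τ : Fin n × Fin n → Fin K)
    (E : Fin n → Fin n → Prop) (p : Fin n × Fin n) (k : Fin K) :
    host e.toEmbedding (fun _ => false) τ (bitsE E) (e (p, k)) = true ↔ E p.1 p.2 ∧ τ p = k := by
  rw [host_true]
  constructor
  · rintro (h | ⟨q, h1, h2⟩)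
    · exact absurd h (by simp)
    · have h3 := e.injective h2
      obtain ⟨rfl, h4⟩ := Prod.mk.inj h3
      refine ⟨?_, h4⟩
      unfold bitsE at h1
      simpa using h1
  · rintro ⟨h1, rfl⟩
    refine Or.inr ⟨p, ?_, rfl⟩
    unfold bitsE
    simpa using h1

open Classical in
lemma packing_of_perfect (e : (Fin n × Fin n) × Fin K ≃ Fin N)
    (ρ : Fin (2 * n) ≃ Fin n ⊕ Fin n) (τ : Fin n × Fin n → Fin K) (E : Fin n → Fin n → Prop)
    (h : HasPerfect E) :
    PackingSolvable (gmat e ρ) (host e.toEmbedding (fun _ => false) τ (bitsE E)) n := by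
  obtain ⟨π, hπ⟩ := h
  set x : Fin N → ℝ := fun c => if (e.symm c).1.2 = π (e.symm c).1.1 ∧ τ (e.symm c).1 = (e.symm c).2
    then 1 else 0 with hx
  have hagg : ∀ p, agg e x p = if p.2 = π p.1 then 1 else 0 := by
    intro p
    unfold agg
    rw [hx]
    simp only [Equiv.symm_apply_apply]
    by_cases h1 : p.2 = π p.1
    · simp [h1]
    · simp [h1]
  refine ⟨x, fun c => ?_, fun c => ?_, fun i => ?_, ?_⟩
  · rw [hx]
    simp only
    split_ifs <;> simp
  · obtain ⟨⟨p, k⟩, rfl⟩ := e.surjective c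
    rw [hx]
    simp only [Equiv.symm_apply_apply]
    by_cases h1 : p.2 = π p.1 ∧ τ p = k
    · rw [if_pos h1, if_pos ((hostE e τ E p k).2 ⟨by rw [h1.1]; exact hπ _, h1.2⟩)]
    · rw [if_neg h1]
      split_ifs <;> simp
  · obtain ⟨u, rfl⟩ : ∃ u, i = ρ.symm u := ⟨ρ i, (ρ.symm_apply_apply i).symm⟩
    rcases u with u | v
    · rw [mulVec_inl]
      simp only [hagg]
      simp
    · rw [mulVec_inr]
      simp only [hagg]
      have h1 : ∀ i : Fin n, (v = π i) ↔ (i = π.symm v) := fun i => by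
        rw [Equiv.eq_symm_apply]
        exact eq_comm
      simp only [h1]
      simp
  · rw [sum_agg e]
    simp only [hagg]
    rw [Fintype.sum_prod_type]
    simp

lemma value_of_packing (e : (Fin n × Fin n) × Fin K ≃ Fin N)
    (ρ : Fin (2 * n) ≃ Fin n ⊕ Fin n) (τ : Fin n × Fin n → Fin K) (E : Fin n → Fin n → Prop)
    {b t : ℝ} (hb : MatchingsLe b E)
    (h : PackingSolvable (gmat e ρ) (host e.toEmbedding (fun _ => false) τ (bitsE E)) t) :
    t ≤ 2 * b := by
  classical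
  obtain ⟨x, h0, h1, h2, h3⟩ := h
  rw [sum_agg e] at h3
  refine h3.trans (Pool.Agent.V11231.LPG.value_le hb (agg e x) ?_)
  rintro (_ | p | p | i | j) hr
  · exact absurd rfl hr
  · rw [Pool.Agent.V11231.LPG.mulVec_cap]
    change agg e x p ≤ (if E p.1 p.2 then 1 else 0)
    unfold agg
    calc ∑ k, x (e (p, k)) ≤ ∑ k, (if E p.1 p.2 ∧ τ p = k then (1 : ℝ) else 0) := by
          refine Finset.sum_le_sum fun k _ => ?_
          refine (h1 _).trans (le_of_eq ?_)
          by_cases h4 : E p.1 p.2 ∧ τ p = k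
          · rw [if_pos ((hostE e τ E p k).2 h4), if_pos h4]
          · rw [if_neg (fun h5 => h4 ((hostE e τ E p k).1 h5)), if_neg h4]
      _ ≤ if E p.1 p.2 then 1 else 0 := by
          by_cases h4 : E p.1 p.2
          · simp [h4]
          · simp [h4]
  · rw [Pool.Agent.V11231.LPG.mulVec_nonneg]
    change -agg e x p ≤ 0
    have : 0 ≤ agg e x p := Finset.sum_nonneg fun k _ => h0 _
    linarith
  · rw [Pool.Agent.V11231.LPG.mulVec_left]
    have h4 := h2 (ρ.symm (Sum.inl i))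
    rw [mulVec_inl] at h4
    exact h4
  · rw [Pool.Agent.V11231.LPG.mulVec_right]
    have h4 := h2 (ρ.symm (Sum.inr j))
    rw [mulVec_inr] at h4
    exact h4

end

open Classical in
theorem lp_fault (c ν : ℝ) (hc : 0 ≤ c) (hν : 0 < ν) (h : 3 * c + 6 * ν < 1) :
    ∃ n₀ : ℕ, ∀ n : ℕ, n₀ ≤ n → ∀ K : ℕ, 1 ≤ K →
    ∃ G : Matrix (Fin (2 * n)) (Fin (n ^ 2 * K)) ℝ, (∀ i j, G i j = 0 ∨ G i j = 1) ∧
      ∀ D : ℕ, 1 ≤ D → D * (2 * Real.log n + 4) ≤ K →
      ∀ (R : Type) [Fintype R] [Nonempty R] (C : R → LiteralCircuit (Fin (n ^ 2 * K))) (S : ℕ),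
        (∀ ρ, (C ρ).s ≤ S) →
        (∀ z, PackingSolvable G z n → 4 / 5 ≤ faultyAcceptance C D z) →
        (∀ z, ¬ PackingSolvable G z ((n : ℝ) ^ (1 - c)) → acceptance C z ≤ 1 / 4) →
        (2 : ℝ) ^ ((n : ℝ) ^ ν) ≤ 3 * S + 2 := by
  obtain ⟨c', hc', h'⟩ : ∃ c' : ℝ, c < c' ∧ 2 * 0 + 3 * c' + 6 * ν < 1 :=
    ⟨c + (1 - (3 * c + 6 * ν)) / 6, by linarith, by linarith⟩
  obtain ⟨N, hN⟩ := asymp_matching 0 c' ν le_rfl (hc.trans hc'.le) hν h'
  obtain ⟨N1, hN1⟩ := Filter.eventually_atTop.1 (((tendsto_rpow_atTop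
    (show (0 : ℝ) < c' - c by linarith)).comp
    (tendsto_natCast_atTop_atTop (R := ℝ))).eventually_gt_atTop 2)
  refine ⟨max N (max N1 1), fun n hn K hK => ?_⟩
  have hnN : N ≤ n := (le_max_left _ _).trans hn
  have hnN1 : N1 ≤ n := ((le_max_left _ _).trans (le_max_right _ _)).trans hn
  have hn1 : 1 ≤ n := ((le_max_right _ _).trans (le_max_right _ _)).trans hn
  have hn0 : (0 : ℝ) < n := by exact_mod_cast hn1
  have hgap : 2 * (n : ℝ) ^ (1 - c') < (n : ℝ) ^ (1 - c) := by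
    have h1 : (2 : ℝ) < (n : ℝ) ^ (c' - c) := hN1 n hnN1
    have h2 : (n : ℝ) ^ (1 - c) = (n : ℝ) ^ (c' - c) * (n : ℝ) ^ (1 - c') := by
      rw [← Real.rpow_add hn0]
      congr 1
      ring
    rw [h2]
    have h3 : 0 < (n : ℝ) ^ (1 - c') := Real.rpow_pos_of_pos hn0 _
    nlinarith
  have hcard : Fintype.card ((Fin n × Fin n) × Fin K) = n ^ 2 * K := by
    simp only [Fintype.card_prod, Fintype.card_fin]
    ring
  let e : (Fin n × Fin n) × Fin K ≃ Fin (n ^ 2 * K) := Fintype.equivFinOfCardEq hcard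
  let ρ : Fin (2 * n) ≃ Fin n ⊕ Fin n := (Fintype.equivFinOfCardEq (by
    rw [Fintype.card_sum, Fintype.card_fin]
    ring)).symm
  refine ⟨gmat e ρ, gmat_entry e ρ, fun D hD hDK R _ _ C S hS h1 h2 => ?_⟩
  have hne : Nonempty (Fin n × Fin n) := ⟨⟨⟨0, by omega⟩, ⟨0, by omega⟩⟩⟩
  have hNZ : NeZero K := ⟨by omega⟩
  have hbad : (Fintype.card (Fin n × Fin n) : ℝ) * (1 - 1 / (D : ℝ)) ^ K ≤ 1 / 40 := by
    refine Pool.Agent.Y630.TG.places_bad hD (by
      rw [Fintype.card_prod, Fintype.card_fin]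
      push_cast
      positivity) ?_
    rw [Fintype.card_prod, Fintype.card_fin]
    push_cast
    rw [Real.log_mul hn0.ne' hn0.ne']
    refine le_trans (le_of_eq ?_) hDK
    ring
  obtain ⟨l, hprog, hlen, f, hf, hdec⟩ := hidden (I := Fin n → Fin n → Prop)
    (X := Fin n × Fin n) (bipInputs n) bitsE (fun p => by
      left
      refine ⟨p.1, p.2, ?_⟩
      funext E
      unfold bitsE
      simp)
    (fun c => Or.inr ⟨c, rfl⟩) HasPerfect (MatchingsLe ((n : ℝ) ^ (1 - c'))) (by omega) hD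
    e.toEmbedding (fun _ => false) C S hS hbad
    (fun E hE τ => h1 _ (packing_of_perfect e ρ τ E hE))
    (fun E hE τ => h2 _ (fun hsol => by
      have := value_of_packing e ρ τ E hE hsol
      linarith))
  have : Nonempty (R × (Fin n × Fin n → Fin K)) :=
    ⟨(Classical.arbitrary R, fun _ => ⟨0, by omega⟩)⟩
  obtain ⟨r, hr⟩ := hN n hnN (R × (Fin n × Fin n → Fin K)) l (fun _ => [])
    (fun r => fprog_of_prog (hprog r))
    ⟨f, hf, fun E => ⟨fun hE => by
      have h3 := (hdec E).1 hE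
      convert h3, fun hE => by
      have h3 := (hdec E).2 hE
      convert h3⟩⟩ (fun r => by
      unfold combos
      simp)
  have h3 : ((l r).length : ℝ) ≤ 3 * S + 2 := by exact_mod_cast hlen r
  have h4 : ((wires ([] : List (List (((Fin n → Fin n → Prop) → ℝ) × ℝ))) : ℕ) : ℝ) = 0 := by
    simp [wires]
  refine hr.trans ?_
  rw [h4]
  linarith

end Pool.Agent.V11231.FLT
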