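import Pool.Agent.Y630.TG.RcFault

/-! Circuits on literals whose negations are unreliable: the transfer to monotone real circuits, for
instances hidden in arbitrary slots. -/

set_option autoImplicit false
set_option linter.unusedSectionVars false
set_option linter.unusedVariables false

namespace Pool.Agent.V11231.FLT

open Finset Pool.Agent.Y630.NW Pool.Agent.Y630.TF Pool.Agent.Y630.TR Pool.Agent.Y630.TG
  Pool.Agent.W969.MC H630VC

/-- A circuit with the gates `0, ..., s - 1` whose inputs are bits indexed by `E` and their
negations: `(e, true)` stands for the bit `e` and `(e, false)` for its negation. Gate `i` has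
`w i ≤ 2` inputs, namely `a i j`, each a literal (`0` or `1`) or an earlier gate; it computes a
nondecreasing function `op i` of real numbers, and its value on the values `y` of the literals is
`val y i`. The circuit accepts if the value of gate `out` is at least `τ`. -/
structure LiteralCircuit (E : Type) where
  s : ℕ
  w : Fin s → ℕ
  a : (i : Fin s) → Fin (w i) → (E × Bool) ⊕ Fin s
  op : (i : Fin s) → (Fin (w i) → ℝ) → ℝ
  val : (E × Bool → Bool) → Fin s → ℝ
  out : Fin s
  τ : ℝ
  earlier : ∀ i j m, a i j = Sum.inr m → m < i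
  mono : ∀ i, w i ≤ 2 ∧ Monotone (op i)
  spec : ∀ y i, val y i = op i (fun j =>
    Sum.elim (fun p => if y p = true then (1 : ℝ) else 0) (val y) (a i j))

open Classical in
/-- The values of the literals on the input `x` if the negated inputs of the bits in `Z` are stuck
at `0`. -/
noncomputable def literals {E : Type} (x : E → Bool) (Z : Set E) : E × Bool → Bool :=
  fun p => if p.2 = true then x p.1 else if p.1 ∈ Z then false else !x p.1

/-- The circuit accepts the input `x` if the negated inputs of the bits in `Z` are stuck at `0`. -/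
def LiteralCircuit.Accepts {E : Type} (C : LiteralCircuit E) (x : E → Bool) (Z : Set E) : Prop :=
  C.τ ≤ C.val (literals x Z) C.out

/-- The probability that the input `x` is accepted by a circuit that is chosen uniformly at random
from the family `C`, without faults. -/
noncomputable def acceptance {E R : Type} (C : R → LiteralCircuit E) (x : E → Bool) : ℝ :=
  (Nat.card {ρ : R // (C ρ).Accepts x ∅} : ℝ) / Nat.card R

/-- The probability that the input `x` is accepted by a circuit that is chosen uniformly at random
from the family `C`, if each negated input is stuck at `0` independently with probability `1 / D`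
(each bit `e` gets a random number `f e` from `0` to `D - 1`, and `0` means a fault). -/
noncomputable def faultyAcceptance {E R : Type} (C : R → LiteralCircuit E) (D : ℕ)
    (x : E → Bool) : ℝ :=
  (Nat.card {v : R × (E → Fin D) // (C v.1).Accepts x {e | (v.2 e : ℕ) = 0}} : ℝ) /
    Nat.card (R × (E → Fin D))

lemma lit_eq {E : Type} (x : E → Bool) (Z : Set E) :
    Pool.Agent.Y630.TF.lit x Z = literals x Z := by
  classical
  funext q
  unfold Pool.Agent.Y630.TF.lit literals
  by_cases hq : q.2 = true
  · rw [if_pos hq, if_pos hq]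
  · rw [if_neg hq, if_neg hq]
    by_cases hZ : q.1 ∈ Z
    · simp [hZ]
    · simp [hZ]

/-- the circuit in the model of the library -/
noncomputable def toRC {E : Type} (C : LiteralCircuit E) : RC (E × Bool) :=
  ⟨C.s, ∅, C.w, C.a, C.op, fun _ _ => 0, C.val, C.out, C.τ, C.earlier,
    fun i _ => C.mono i, fun i hi => absurd hi (Finset.notMem_empty i), C.spec⟩

lemma toRC_acc {E : Type} (C : LiteralCircuit E) (x : E → Bool) (Z : Set E) :
    (toRC C).acc (Pool.Agent.Y630.TF.lit x Z) ↔ C.Accepts x Z := by
  rw [lit_eq]
  exact Iff.rfl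

lemma fprog_of_prog {I : Type} {inp : Set (I → ℝ)} {l : List (I → ℝ)} (h : Prog inp l) :
    FProg inp l [] := by
  induction h with
  | nil => exact .nil
  | input _ hf ih => exact .input ih hf
  | gate _ hφ hf hg ih => exact .gate ih hφ hf hg

open Classical in
/-- **The transfer.** From circuits with unreliable negations which solve the hosted problem one gets
a randomised circuit of monotone real gates for the problem itself. -/
theorem hidden {I X E : Type} [Fintype X] [DecidableEq X] [Nonempty X] [Fintype E] [DecidableEq E]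
    (inp : Set (I → ℝ)) (enc : I → X → Bool)
    (hbit : ∀ x, (fun i => if enc i x = true then (1 : ℝ) else 0) ∈ inp)
    (hconst : ∀ c : ℝ, (fun _ => c) ∈ inp) (No Yes : I → Prop) {K D : ℕ} (hK : 0 < K) (hD : 0 < D)
    (slot : X × Fin K ↪ E) (base : E → Bool)
    {R : Type} [Fintype R] [Nonempty R] (C : R → LiteralCircuit E) (s : ℕ)
    (hs : ∀ ρ, (C ρ).s ≤ s)
    (hbad : (Fintype.card X : ℝ) * (1 - 1 / (D : ℝ)) ^ K ≤ 1 / 40)
    (h1 : ∀ i, No i → ∀ τ : X → Fin K,
      4 / 5 ≤ faultyAcceptance C D (host slot base τ (enc i)))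
    (h2 : ∀ i, Yes i → ∀ τ : X → Fin K, acceptance C (host slot base τ (enc i)) ≤ 1 / 4) :
    ∃ l : R × (X → Fin K) → List (I → ℝ), (∀ ω, Prog inp (l ω)) ∧
      (∀ ω, (l ω).length ≤ 3 * s + 2) ∧ ∃ f : R × (X → Fin K) → I → ℝ,
        (∀ ω, f ω ∈ l ω) ∧ ∀ i,
        (No i → 3 * Fintype.card (R × (X → Fin K)) ≤ 4 * (univ.filter fun ω => 1 ≤ f ω i).card) ∧
        (Yes i → 3 * Fintype.card (R × (X → Fin K)) ≤
          4 * (univ.filter fun ω => f ω i < 1).card) := by
  have _ : NeZero K := ⟨hK.ne'⟩
  have hR : (0 : ℝ) < Fintype.card R := by exact_mod_cast Fintype.card_pos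
  have hDR : (0 : ℝ) < D := by exact_mod_cast hD
  have hx0 : Nonempty X := inferInstance
  obtain ⟨x0⟩ := hx0
  have hT : ∀ ρ, (toRC (C ρ)).T = ∅ := fun _ => rfl
  have hex : ∀ ω : R × (X → Fin K), ∃ (l : List (I → ℝ)) (f : I → ℝ), Prog inp l ∧
      l.length ≤ 3 * s + 2 ∧ f ∈ l ∧ ∀ i, 1 ≤ f i ↔
        (toRC (C ω.1)).acc (rlit slot base ω.2 (enc i)) := by
    intro ω
    obtain ⟨σ, c, hσ⟩ := rlit_lsb slot base ω.2
    obtain ⟨C', hsize, -, hT', hacc⟩ := subst (toRC (C ω.1)) x0 σ c
    have hT2 : C'.T = ∅ := hT'.mpr (hT ω.1)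
    obtain ⟨L, hL, hlen, f, hf, hval⟩ := rc_prog inp enc hbit hconst C' hT2
    refine ⟨L, f, prog_of_fprog hL rfl, ?_, hf, fun i => ?_⟩
    · have h3 : C'.S = (toRC (C ω.1)).S := by
        have h4 : C'.size = C'.S := by
          unfold RC.size
          rw [hT2, Finset.sum_empty, Nat.add_zero]
        have h5 : (toRC (C ω.1)).size = (toRC (C ω.1)).S := by
          unfold RC.size
          rw [hT ω.1, Finset.sum_empty, Nat.add_zero]
        rw [← h4, ← h5, hsize]
      have h6 : (toRC (C ω.1)).S ≤ s := hs ω.1
      rw [h3] at hlen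
      omega
    · rw [hval i, hacc, hσ]
      rfl
  choose l f hprog hlen hmem hval using hex
  refine ⟨l, hprog, hlen, f, hmem, fun i => ⟨fun hi => ?_, fun hi => ?_⟩⟩
  · have h3 := transfer_yes slot base hD
      (fun ρ y => (toRC (C ρ)).acc y) (fun ρ u v huv hu => acc_mono _ (hT ρ) huv hu) (3 / 4) (1 / 20)
      (by rw [Fintype.card_fin]; exact hbad.trans (by norm_num)) (enc i) (fun τ => by
        have h4 := h1 i hi τ
        unfold faultyAcceptance at h4
        rw [le_div_iff₀ (by
          rw [Nat.card_eq_fintype_card, Fintype.card_prod, Fintype.card_fun, Fintype.card_fin]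
          push_cast
          positivity)] at h4
        rw [Nat.card_eq_fintype_card (α := R × (E → Fin D)), Fintype.card_prod,
          Fintype.card_fun, Fintype.card_fin] at h4
        refine (le_of_eq ?_).trans (h4.trans (le_of_eq ?_))
        · push_cast
          norm_num
        congr 1
        show Nat.card ↥{v : R × (E → Fin D) |
          (C v.1).Accepts (host slot base τ (enc i)) {c | (v.2 c : ℕ) = 0}} = _
        rw [Nat.card_coe_set_eq]
        congr 1
        ext v
        show (C v.1).Accepts (host slot base τ (enc i)) {c | (v.2 c : ℕ) = 0} ↔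
          (toRC (C v.1)).acc (lit (host slot base τ (enc i)) (Flt v.2))
        rw [toRC_acc]
        rfl)
    have h4 : (3 / 4 : ℝ) * Fintype.card (R × (X → Fin K)) ≤
        ((univ.filter fun ω => 1 ≤ f ω i).card : ℝ) := by
      refine le_trans ?_ (h3.trans (le_of_eq ?_))
      · refine mul_le_mul_of_nonneg_right (by norm_num) (Nat.cast_nonneg _)
      · rw [Set.ncard_eq_toFinset_card']
        congr 2
        ext ω
        simp [hval]
    have h5 : (3 : ℝ) * Fintype.card (R × (X → Fin K)) ≤
        4 * ((univ.filter fun ω => 1 ≤ f ω i).card : ℝ) := by linarith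
    exact_mod_cast h5
  · have h3 := transfer_no slot base
      (fun ρ y => (toRC (C ρ)).acc y) (fun ρ u v huv hu => acc_mono _ (hT ρ) huv hu) (1 / 4) (enc i)
      (fun τ => by
        have h4 := h2 i hi τ
        unfold acceptance at h4
        rw [div_le_iff₀ (by rw [Nat.card_eq_fintype_card]; exact hR),
          Nat.card_eq_fintype_card (α := R)] at h4
        refine (le_of_eq ?_).trans h4
        congr 1
        show _ = Nat.card ↥{ρ : R | (C ρ).Accepts (host slot base τ (enc i)) ∅}
        rw [Nat.card_coe_set_eq]
        congr 1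
        ext ρ
        show (toRC (C ρ)).acc (lit (host slot base τ (enc i)) ∅) ↔
          (C ρ).Accepts (host slot base τ (enc i)) ∅
        rw [toRC_acc])
    have h4 : ((univ.filter fun ω => 1 ≤ f ω i).card : ℝ) ≤
        1 / 4 * Fintype.card (R × (X → Fin K)) := by
      refine le_trans (le_of_eq ?_) h3
      rw [Set.ncard_eq_toFinset_card']
      congr 2
      ext ω
      simp [hval]
    have h5 := Finset.card_filter_add_card_filter_not (s := (univ : Finset (R × (X → Fin K))))
      (p := fun ω => 1 ≤ f ω i)
    rw [Finset.card_univ] at h5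
    have h6 : (univ.filter fun ω : R × (X → Fin K) => ¬ 1 ≤ f ω i) =
        univ.filter fun ω => f ω i < 1 := by
      ext ω
      simp
    rw [h6] at h5
    have h7 : ((univ.filter fun ω => 1 ≤ f ω i).card : ℝ) +
        ((univ.filter fun ω => f ω i < 1).card : ℝ) = Fintype.card (R × (X → Fin K)) := by
      exact_mod_cast h5
    have h8 : (3 : ℝ) * Fintype.card (R × (X → Fin K)) ≤
        4 * ((univ.filter fun ω => f ω i < 1).card : ℝ) := by linarith
    exact_mod_cast h8

end Pool.Agent.V11231.FLT
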